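import Pool.Agent.Helper60.NK.Upper
import Pool.Agent.Helper96.PB.Defs

/-!
# P1: the pushdown program
-/

set_option autoImplicit false

namespace Pool.Agent.Helper60.PB

open Finset Pool.Agent.Helper19.NF Pool.Agent.Helper74.NW Pool.Agent.Helper99.NQ Pool.Agent.Helper96.PB
open Pool.Agent.Helper74.NE (fine fine_apply)
open Pool.Agent.Helper60.NK (cont tabA tabA_cont symbols_of_contents)

variable {n D m : ℕ} [NeZero m] {F B : Type} [Field F] [Fintype F] [AddCommGroup B] [Module F B] [Fintype B]

/-- P1: the pushdown program, from PH's (`Helper60.PH.pushdown_program` with `G = F`), symbol by symbol (`L` symbols of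
a block, the word so far and the symbol number `0` in the state). -/
theorem pushdown_program (g : Fin D → Equiv.Perm (Fin n)) (x0 : Fin n × Fin m → B) (R : ℕ) (hd : 1 ≤ D) (hn : 1 ≤ n) :
    ∃ (Q Γ : Type) (_ : Finite Q) (_ : Finite Γ) (P : PProg (B × Word D m B) F F Q Γ),
      Nat.card Q ≤ 4 * ((R + 2) * (n * m) * (D * m)) * (Fintype.card B ^ 2 * Fintype.card F) *
          ((Fintype.card (Word D m B) + 1) * (Fintype.card (Word D m B) * Fintype.card F)) ∧
      Nat.card Γ ≤ 4 * ((R + 2) * (n * m) * (D * m)) * (Fintype.card B * Fintype.card F) ∧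
      ∀ I, P.Outputs I (out g x0 R I) ∧
        Nat.card {b // P.Asks I b} ≤ (R + 2) * (n * m) * Fintype.card (Word D m B) := by
  obtain ⟨Q, Γ, hQ, hΓ, P, h1, h2, h3⟩ := Pool.Agent.Helper60.PH.pushdown_program (G := F) g x0 R hd hn
  obtain ⟨Q', hQ', P', h4, h5⟩ := symbols_of_contents (V := Word D m B) (F := F)
    (cont (D := D) (m := m) (B := B) (F := F)) P
  refine ⟨Q', Γ, hQ', hΓ, P', ?_, h2, fun I => ?_⟩
  · rw [h4]
    have e1 : Nat.card (Word D m B × F) = Fintype.card (Word D m B) * Fintype.card F := by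
      rw [Nat.card_prod, Nat.card_eq_fintype_card, Nat.card_eq_fintype_card]
    rw [e1, Nat.card_eq_fintype_card (α := Word D m B)]
    exact Nat.mul_le_mul h1 (Nat.mul_le_mul_right _ (Nat.le_succ _))
  · have e1 : (tabA (cont (D := D) (m := m) (B := B) (F := F)) I) = fun b => (tab I b, I (b, 0)) := by
      funext b
      exact tabA_cont I b
    have h7 := h3 (fun b => (tab I b, I (b, 0)))
    have h8 := h5 I
    rw [e1] at h8
    refine ⟨h8.1 _ h7.1, ?_⟩
    have h6 : Nat.card {x // P'.Asks I x} ≤
        Nat.card ({b // P.Asks (fun b => (tab I b, I (b, 0))) b} × Word D m B) := by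
      refine Nat.card_le_card_of_injective
        (fun x => (⟨x.1.1, h8.2 x.1 x.2⟩, x.1.2)) ?_
      intro x y hxy
      rw [Prod.mk.injEq, Subtype.mk.injEq] at hxy
      exact Subtype.ext (Prod.ext hxy.1 hxy.2)
    refine h6.trans ?_
    rw [Nat.card_prod, Nat.card_eq_fintype_card (α := Word D m B)]
    exact Nat.mul_le_mul_right _ h7.2

end Pool.Agent.Helper60.PB
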